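import Mathlib
import Pool.Agent.W205.K5.All
import Pool.Agent.W890.SF.R7

set_option autoImplicit false

namespace Pool.Agent.Results.MP_779da1_co.SmallUniformity

open Finset Filter Topology

/-- number of lethal `k`-subsets of the distribution `x` -/
noncomputable def L {n : ℕ} (k : ℕ) (x : Fin n → ℝ) : ℕ :=
  Set.ncard {V : Finset (Fin n) | V.card = k ∧ (1 : ℝ) ≤ ∑ i ∈ V, x i}

/-- the `1/j`-distribution: dose `1/j` on `min n ⌊jh⌋` elements, the rest of the poison unused -/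
noncomputable def dose (n : ℕ) (h : ℝ) (j : ℕ) : Fin n → ℝ :=
  fun i => if i.val < min n ⌊h * (j : ℝ)⌋₊ then (1 : ℝ) / (j : ℝ) else 0

/-- For `k = 2, 3, 4, 5` and every `z` with `0 < z ≤ 1/k`, total dose `h = zn`: the `1/1`- or the
`1/k`-distribution is optimal up to `o(C(n,k))`. -/
theorem result (k : ℕ) (hk : 2 ≤ k) (hk5 : k ≤ 5) (z : ℝ) (hz : 0 < z) (hz1 : z ≤ 1 / (k : ℝ)) :
    ∀ ε : ℝ, 0 < ε → ∀ᶠ n : ℕ in atTop,
      ∀ x : Fin n → ℝ, (∀ i, 0 ≤ x i) → ∑ i, x i = z * n →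
        (L k x : ℝ) ≤ max (L k (dose n (z * n) 1) : ℝ) (L k (dose n (z * n) k) : ℝ) +
          ε * n.choose k := by
  intro ε hε
  exact Pool.Agent.W890.SF.R7.asymS Pool.Agent.W890.SF.t_LIM k hk z hz hz1
    (Pool.Agent.W205.K5.ub5 k hk hk5 z hz hz1) ε hε

end Pool.Agent.Results.MP_779da1_co.SmallUniformity
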