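import Mathlib
import Pool.Agent.W593.IR.All
import Pool.Agent.W890.SF.R7

set_option autoImplicit false

namespace Pool.Agent.Results.MP_779da1_co.UnitDose

open Finset Filter Topology

/-- number of lethal `k`-subsets of the distribution `x` -/
noncomputable def L {n : ℕ} (k : ℕ) (x : Fin n → ℝ) : ℕ :=
  Set.ncard {V : Finset (Fin n) | V.card = k ∧ (1 : ℝ) ≤ ∑ i ∈ V, x i}

/-- the `1/j`-distribution: dose `1/j` on `min n ⌊jh⌋` elements, the rest of the poison unused -/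
noncomputable def dose (n : ℕ) (h : ℝ) (j : ℕ) : Fin n → ℝ :=
  fun i => if i.val < min n ⌊h * (j : ℝ)⌋₊ then (1 : ℝ) / (j : ℝ) else 0

/-- (1) for `n ≥ n0(k)` and `⌊h⌋ ≤ 40n/(40k+39)` the `1/1`-distribution is optimal, with value
`C(n,k) - C(n-⌊h⌋,k)`; (2) for `h ≥ n/k` the `1/k`-distribution is optimal (trivial); (3) for every
`z ≤ 1/k` outside the short interval `1/(k+5/8) < z < 1/(k+2/5)` and `h = zn`, the `1/1`- or the
`1/k`-distribution is optimal up to `o(C(n,k))`; (4) an upper bound for all `z < 1/k`. -/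
theorem result (k : ℕ) (hk : 2 ≤ k) :
    (∃ n0 : ℕ, ∀ n : ℕ, n0 ≤ n → ∀ h : ℝ, 1 < h → (40 * k + 39) * ⌊h⌋₊ ≤ 40 * n →
      L k (dose n h 1) = n.choose k - (n - ⌊h⌋₊).choose k ∧
      ∀ x : Fin n → ℝ, (∀ i, 0 ≤ x i) → ∑ i, x i = h → L k x ≤ L k (dose n h 1)) ∧
    (∀ n : ℕ, ∀ h : ℝ, (n : ℝ) ≤ k * h →
      L k (dose n h k) = n.choose k ∧ ∀ x : Fin n → ℝ, L k x ≤ L k (dose n h k)) ∧
    (∀ z : ℝ, 0 < z → z ≤ 1 / (k : ℝ) →
      (z ≤ 1 / ((k : ℝ) + 5 / 8) ∨ 1 / ((k : ℝ) + 2 / 5) ≤ z) →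
      ∀ ε : ℝ, 0 < ε → ∀ᶠ n : ℕ in atTop,
        ∀ x : Fin n → ℝ, (∀ i, 0 ≤ x i) → ∑ i, x i = z * n →
          (L k x : ℝ) ≤ max (L k (dose n (z * n) 1) : ℝ) (L k (dose n (z * n) k) : ℝ) +
            ε * n.choose k) ∧
    (∀ z : ℝ, 0 < z → k * z < 1 → ∀ ε : ℝ, 0 < ε → ∀ᶠ n : ℕ in atTop,
      ∀ x : Fin n → ℝ, (∀ i, 0 ≤ x i) → ∑ i, x i = z * n →
        (L k x : ℝ) ≤ (max (1 - (1 - z) ^ k) (z / (1 - (k - 1) * z)) + ε) * n.choose k) := by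
  refine ⟨?_, ?_, ?_, ?_⟩
  · obtain ⟨n0, h0⟩ := Pool.Agent.W890.SF.R6.exact Pool.Agent.W890.SF.t_EMC
      Pool.Agent.W890.SF.t_LOW k hk
    exact ⟨n0, fun n hn h _ hs => h0 n hn h hs⟩
  · intro n h hn
    have h1 := Pool.Agent.W890.SF.R6.L_dose_k n k (by omega) h hn
    refine ⟨h1, fun x => ?_⟩
    exact le_of_le_of_eq (Pool.Agent.W890.SF.R6.L_le_choose k x) h1.symm
  · intro z hz hz1 h ε hε
    have key : z = 1 / (k : ℝ) ∨ ((k : ℝ) * z < 1 ∧ Pool.Agent.W593.IR.UBS k z) := by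
      apply Pool.Agent.W593.IR.ub k hk z hz hz1
      rcases h with h | h
      · left
        rw [le_div_iff₀ (by positivity)] at h
        linarith
      · right
        rw [div_le_iff₀ (by positivity)] at h
        linarith
    exact Pool.Agent.W890.SF.R7.asymS Pool.Agent.W890.SF.t_LIM k hk z hz hz1 key ε hε
  · intro z hz h1 ε hε
    exact Pool.Agent.W890.SF.R6.upper Pool.Agent.W890.SF.t_R4 k hk z hz h1 ε hε

end Pool.Agent.Results.MP_779da1_co.UnitDose
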